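import Pool.Agent.Helper49.LC.St

set_option autoImplicit false

open scoped ContDiff

namespace Pool.Agent.Helper24.LC

open Pool.Agent.Helper14.LK Pool.Agent.Helper49.LC
open Pool.Agent.Helper14.LE (hd lt mk)

private noncomputable def cj {n : ℕ} (T : WW n ≃L[ℝ] WW n) (U : EE n ≃ₗᵢ[ℝ] EE n)
    (ι : EE n → WW n) (x : EE n) : WW n := T (ι (U.symm x))

private lemma cj_has {n : ℕ} (T : WW n ≃L[ℝ] WW n) (U : EE n ≃ₗᵢ[ℝ] EE n) {ι : EE n → WW n}
    (h1 : ContDiff ℝ ∞ ι) (x u : EE n) :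
    fderiv ℝ (cj T U ι) x u = T (fderiv ℝ ι (U.symm x) (U.symm u)) := by
  have hd1 : HasFDerivAt ι (fderiv ℝ ι (U.symm x)) (U.symm x) :=
    (h1.differentiable (by simp) (U.symm x)).hasFDerivAt
  have hd2 : HasFDerivAt (fun y => U.symm y)
      (U.symm.toContinuousLinearEquiv : EE n →L[ℝ] EE n) x :=
    (U.symm.toContinuousLinearEquiv : EE n →L[ℝ] EE n).hasFDerivAt
  have hd3 : HasFDerivAt (fun y => T y) (T : WW n →L[ℝ] WW n) (ι (U.symm x)) :=
    (T : WW n →L[ℝ] WW n).hasFDerivAt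
  have h4 := hd3.comp x (hd1.comp x hd2)
  have h5 : fderiv ℝ (cj T U ι) x = _ := h4.fderiv
  rw [h5]
  rfl

private lemma cj_all {n : ℕ} (T : WW n ≃L[ℝ] WW n) (U : EE n ≃ₗᵢ[ℝ] EE n)
    (hom : ∀ a b, om (T a) (T b) = om a b) (hT : ∀ x, T (x, 0) = (U x, 0)) {ι : EE n → WW n}
    (h1 : ContDiff ℝ ∞ ι) (h2 : Isotropic ι) (h3 : Immersive ι) (h4 : Function.Injective ι)
    (h5 : StdInfty ι) :
    ContDiff ℝ ∞ (cj T U ι) ∧ Isotropic (cj T U ι) ∧ Immersive (cj T U ι) ∧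
      Function.Injective (cj T U ι) ∧ StdInfty (cj T U ι) := by
  refine ⟨?_, ?_, ?_, ?_, ?_⟩
  · have ha : ContDiff ℝ ∞ (fun y => U.symm y) := U.symm.contDiff
    have hb : ContDiff ℝ ∞ (fun y => T y) := T.contDiff
    exact hb.comp (h1.comp ha)
  · intro x u v
    rw [cj_has T U h1, cj_has T U h1, hom]
    exact h2 _ _ _
  · intro x u hu
    rw [cj_has T U h1] at hu
    have h6 : fderiv ℝ ι (U.symm x) (U.symm u) = 0 := (map_eq_zero_iff T T.injective).1 hu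
    have h7 := h3 _ _ h6
    exact (map_eq_zero_iff U.symm U.symm.injective).1 h7
  · intro x y hxy
    have h6 := T.injective hxy
    exact U.symm.injective (h4 h6)
  · obtain ⟨R, hR⟩ := h5
    refine ⟨R, fun x hx => ?_⟩
    show T (ι (U.symm x)) = (x, 0)
    rw [hR (U.symm x) (by rw [LinearIsometryEquiv.norm_map]; exact hx), hT,
      LinearIsometryEquiv.apply_symm_apply]

private lemma exists_norm {n : ℕ} (hn : 2 ≤ n) (c : ℝ) : ∃ x : EE n, c < ‖x‖ := by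
  refine ⟨EuclideanSpace.single (⟨0, by omega⟩ : Fin n) (|c| + 1), ?_⟩
  rw [PiLp.norm_single, Real.norm_eq_abs, abs_of_nonneg (by positivity)]
  linarith [le_abs_self c]

private lemma snd_ne {n : ℕ} (hn : 2 ≤ n) (e : WW n) (he : e ≠ 0) (ι : EE n → WW n)
    (h5 : StdInfty ι) (H1 : ∀ x u, fderiv ℝ ι x u ∈ Submodule.span ℝ {e} → u = 0) :
    e.2 ≠ 0 := by
  intro h0
  obtain ⟨R, hR⟩ := h5
  obtain ⟨x, hx⟩ := exists_norm hn R
  have h6 : ι =ᶠ[nhds x] (ContinuousLinearMap.inl ℝ (EE n) (EE n)) := by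
    have h7 : ∀ᶠ y in nhds x, R < ‖y‖ := continuous_norm.continuousAt.eventually (lt_mem_nhds hx)
    filter_upwards [h7] with y hy
    rw [hR y hy.le]
    rfl
  have h8 : fderiv ℝ ι x = ContinuousLinearMap.inl ℝ (EE n) (EE n) := by
    rw [h6.fderiv_eq, ContinuousLinearMap.fderiv]
  have h9 : fderiv ℝ ι x e.1 = e := by
    rw [h8]
    refine Prod.ext rfl ?_
    simp [h0]
  have h10 := H1 x e.1 (by rw [h9]; exact Submodule.mem_span_singleton_self e)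
  exact he (Prod.ext h10 h0)

theorem hLI2 (hLIN : StLIN) (hLNF : StLNF) (hCOM : StCOM) (hKNB : StKNB) (hEQV : StEQV) :
    StLI2 := by
  intro n hn e he ι h1 h2 h5 H1 H2
  have he2 : e.2 ≠ 0 := snd_ne hn e he ι h5 H1
  have h3 : Immersive ι := fun x u hu => H1 x u (by rw [hu]; exact Submodule.zero_mem _)
  have h4 : Function.Injective ι := fun x y hxy =>
    H2 x y (by rw [hxy, sub_self]; exact Submodule.zero_mem _)
  obtain ⟨k, rfl⟩ : ∃ k, n = k + 1 := ⟨n - 1, by omega⟩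
  obtain ⟨T, U, hom, hT, hsp⟩ := hLNF k e he2
  obtain ⟨kn1, _, _, _, _, _, kn7⟩ := hKNB
  obtain ⟨_, _, _, _, _, _, _, eq8⟩ := hEQV
  obtain ⟨a1, a2, a3, a4, a5⟩ := cj_all T U hom hT h1 h2 h3 h4 h5
  obtain ⟨ι', hι'⟩ : ∃ ι' : EE (k + 1) → WW (k + 1), ι' = cj T U ι := ⟨_, rfl⟩
  rw [← hι'] at a1 a2 a3 a4 a5
  obtain ⟨R, hR⟩ := kn1 (k + 1) ι' a1 a2 a3 a4 a5
  have hK : Kn ι' 0 R := hR R le_rfl
  have G1 : ∀ x u, (fderiv ℝ ι' x u).1 = 0 → hd (fderiv ℝ ι' x u).2 = 0 → u = 0 := by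
    intro x u hu1 hu2
    rw [hι', cj_has T U h1] at hu1 hu2
    have h6 := H1 _ _ (hsp _ hu1 hu2)
    exact (map_eq_zero_iff U.symm U.symm.injective).1 h6
  have G2 : ∀ x x', (ι' x).1 = (ι' x').1 → hd (ι' x).2 = hd (ι' x').2 → x = x' := by
    intro x x' hx1 hx2
    have h6 : T (ι (U.symm x) - ι (U.symm x')) = ι' x - ι' x' := by
      rw [map_sub, hι']
      rfl
    have h7 := H2 _ _ (hsp (ι (U.symm x) - ι (U.symm x'))
      (by rw [h6, Prod.fst_sub, hx1, sub_self])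
      (by rw [h6, Prod.snd_sub, map_sub, hx2, sub_self]))
    exact U.symm.injective h7
  obtain ⟨hKβ', hnorm, hEq⟩ := hLIN k (by omega) ι' R hK G1 G2
  obtain ⟨β', hβ'⟩ : ∃ β' : EE (k + 1) → WW (k + 1), β' = mi ι' := ⟨_, rfl⟩
  rw [← hβ'] at hKβ' hEq
  have homs : ∀ a b, om (T.symm a) (T.symm b) = om a b := by
    intro a b
    rw [← hom, ContinuousLinearEquiv.apply_symm_apply, ContinuousLinearEquiv.apply_symm_apply]
  have hTs : ∀ x, T.symm (x, 0) = (U.symm x, 0) := by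
    intro x
    rw [ContinuousLinearEquiv.symm_apply_eq, hT, LinearIsometryEquiv.apply_symm_apply]
  obtain ⟨b1, b2, b3, b4, b5⟩ := cj_all T.symm U.symm homs hTs hKβ'.sm hKβ'.iso hKβ'.imm hKβ'.inj
    (kn7 _ _ _ _ hKβ')
  obtain ⟨β, hβ⟩ : ∃ β : EE (k + 1) → WW (k + 1), β = cj T.symm U.symm β' := ⟨_, rfl⟩
  rw [← hβ] at b1 b2 b3 b4 b5
  obtain ⟨Ra, hRa⟩ := kn1 (k + 1) ι h1 h2 h3 h4 h5
  obtain ⟨Rb, hRb⟩ := kn1 (k + 1) β b1 b2 b3 b4 b5
  obtain ⟨R1, hR1⟩ : ∃ R1, R1 = max Ra Rb := ⟨_, rfl⟩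
  have hKa : Kn ι 0 R1 := hRa R1 (by rw [hR1]; exact le_max_left _ _)
  have hKb : Kn β 0 R1 := hRb R1 (by rw [hR1]; exact le_max_right _ _)
  obtain ⟨a, ha⟩ := exists_norm hn (2 * R1 + 2 * R)
  have hRpos := hK.pos
  have hR1pos := hKa.pos
  have hE2 : Eq1 (Plane (k + 1)) (Set.range (su ι' (pc a 1 β'))) :=
    (hCOM (k + 1) hn ι' β' R R hK hKβ' _ 1 one_pos (by linarith) hEq a 1 one_pos).1 (by linarith)
  have hE3 := eq8 (k + 1) _ _ T.symm homs hE2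
  have hpl : T.symm '' Plane (k + 1) = Plane (k + 1) := by
    ext w
    constructor
    · rintro ⟨v, hv, rfl⟩
      have h6 : v = (v.1, 0) := Prod.ext rfl hv
      show (T.symm v).2 = 0
      rw [h6, hTs]
    · intro hw
      have h6 : w = (w.1, 0) := Prod.ext rfl hw
      refine ⟨(U w.1, 0), rfl, ?_⟩
      rw [hTs, LinearIsometryEquiv.symm_apply_apply]
      exact h6.symm
  have hpt : ∀ x, T.symm (su ι' (pc a 1 β') (U x)) = su ι (pc (U.symm a) 1 β) x := by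
    intro x
    have e1 : T.symm (ι' (U x)) = ι x := by
      rw [hι']
      show T.symm (T (ι (U.symm (U x)))) = ι x
      rw [ContinuousLinearEquiv.symm_apply_apply, LinearIsometryEquiv.symm_apply_apply]
    have e2 : β (x - U.symm a) = T.symm (β' (U x - a)) := by
      rw [hβ]
      show T.symm (β' (U.symm.symm (x - U.symm a))) = T.symm (β' (U x - a))
      rw [LinearIsometryEquiv.symm_symm, map_sub, LinearIsometryEquiv.apply_symm_apply]
    show T.symm (ι' (U x) + ((a, 0) + (1 : ℝ) • β' ((1 : ℝ)⁻¹ • (U x - a))) - (U x, 0)) =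
      ι x + ((U.symm a, 0) + (1 : ℝ) • β ((1 : ℝ)⁻¹ • (x - U.symm a))) - (x, 0)
    rw [inv_one, one_smul, one_smul, one_smul, one_smul, map_sub, map_add, map_add, e1, e2, hTs,
      hTs, LinearIsometryEquiv.symm_apply_apply]
  have hrg : T.symm '' Set.range (su ι' (pc a 1 β')) =
      Set.range (su ι (pc (U.symm a) 1 β)) := by
    ext w
    constructor
    · rintro ⟨_, ⟨y, rfl⟩, rfl⟩
      refine ⟨U.symm y, ?_⟩
      rw [← hpt, LinearIsometryEquiv.apply_symm_apply]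
    · rintro ⟨x, rfl⟩
      exact ⟨_, ⟨U x, rfl⟩, hpt x⟩
  rw [hpl, hrg] at hE3
  refine ⟨ι, β, R1, U.symm a, rfl, hKa, hKb, ?_, hE3⟩
  rw [LinearIsometryEquiv.norm_map]
  linarith

end Pool.Agent.Helper24.LC
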