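import Pool.Agent.Helper49.LC.St

set_option autoImplicit false

open scoped ContDiff

namespace Pool.Agent.Helper24.LC

open Pool.Agent.Helper14.LK Pool.Agent.Helper49.LC
open Pool.Agent.Helper14.LE (hd lt mk norm_sq_eq hd_mk lt_mk ext_hd_lt)

private noncomputable def Am {n : ℕ} (m v : EE n) : EE n →L[ℝ] EE n :=
  (‖v‖ ^ 2)⁻¹ • ((innerSL ℝ v).smulRight m + (innerSL ℝ m).smulRight v) -
    (inner ℝ m v * (‖v‖ ^ 2)⁻¹ * (‖v‖ ^ 2)⁻¹) • (innerSL ℝ v).smulRight v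

private lemma Am_apply {n : ℕ} (m v x : EE n) : Am m v x =
    (‖v‖ ^ 2)⁻¹ • (inner ℝ v x • m + inner ℝ m x • v) -
    (inner ℝ m v * (‖v‖ ^ 2)⁻¹ * (‖v‖ ^ 2)⁻¹) • (inner ℝ v x • v) := by
  simp [Am]

private lemma Am_self {n : ℕ} (m v : EE n) (hv : v ≠ 0) : Am m v v = m := by
  rw [Am_apply, real_inner_self_eq_norm_sq]
  have h : ‖v‖ ^ 2 ≠ 0 := by positivity
  rw [smul_add, smul_smul, inv_mul_cancel₀ h, one_smul, smul_smul, smul_smul]
  have e1 : inner ℝ m v * (‖v‖ ^ 2)⁻¹ * (‖v‖ ^ 2)⁻¹ * ‖v‖ ^ 2 = (‖v‖ ^ 2)⁻¹ * inner ℝ m v := by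
    rw [mul_assoc, inv_mul_cancel₀ h, mul_one, mul_comm]
  rw [e1, add_sub_cancel_right]

private lemma Am_symm {n : ℕ} (m v x y : EE n) :
    inner ℝ (Am m v x) y = inner ℝ x (Am m v y) := by
  rw [Am_apply, Am_apply]
  simp only [inner_sub_left, inner_sub_right, inner_add_left, inner_add_right,
    real_inner_smul_left, real_inner_smul_right]
  rw [real_inner_comm x m, real_inner_comm x v]
  ring

private lemma exU {k : ℕ} (v : EE (k + 1)) (hv : v ≠ 0) :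
    ∃ U : EE (k + 1) ≃ₗᵢ[ℝ] EE (k + 1), U (‖v‖⁻¹ • v) = mk (0, 1) := by
  have hn : ‖v‖ ≠ 0 := norm_ne_zero_iff.2 hv
  have h1 : ‖‖v‖⁻¹ • v‖ = 1 := by
    rw [norm_smul, norm_inv, norm_norm, inv_mul_cancel₀ hn]
  have h2 : ‖(mk (0, 1) : EE (k + 1))‖ = 1 := by
    have h3 := norm_sq_eq (mk (0, 1) : EE (k + 1))
    rw [hd_mk, lt_mk] at h3
    simp only [norm_zero] at h3
    have h4 : ‖(mk (0, 1) : EE (k + 1))‖ ^ 2 = 1 := by rw [h3]; norm_num
    nlinarith [norm_nonneg (mk (0, 1) : EE (k + 1))]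
  exact ⟨_, Submodule.reflection_sub (h1.trans h2.symm)⟩

theorem hLNF : StLNF := by
  intro k e he
  obtain ⟨m, v⟩ := e
  simp only at he
  obtain ⟨U, hU⟩ := exU v he
  obtain ⟨A, hA⟩ : ∃ A : EE (k + 1) →L[ℝ] EE (k + 1), A = Am m v := ⟨_, rfl⟩
  have hAv : A v = m := by rw [hA]; exact Am_self m v he
  have hAs : ∀ x y, inner ℝ (A x) y = inner ℝ x (A y) := by
    intro x y
    rw [hA]
    exact Am_symm m v x y
  obtain ⟨Uc, hUc⟩ : ∃ Uc : EE (k + 1) →L[ℝ] EE (k + 1), ∀ x, Uc x = U x :=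
    ⟨(U.toContinuousLinearEquiv : EE (k + 1) →L[ℝ] EE (k + 1)), fun x => rfl⟩
  obtain ⟨Ui, hUi⟩ : ∃ Ui : EE (k + 1) →L[ℝ] EE (k + 1), ∀ x, Ui x = U.symm x :=
    ⟨(U.symm.toContinuousLinearEquiv : EE (k + 1) →L[ℝ] EE (k + 1)), fun x => rfl⟩
  obtain ⟨f, hf⟩ : ∃ f : WW (k + 1) →L[ℝ] WW (k + 1), ∀ w, f w = (U (w.1 - A w.2), U w.2) :=
    ⟨(Uc.comp (ContinuousLinearMap.fst ℝ _ _ - A.comp (ContinuousLinearMap.snd ℝ _ _))).prod
      (Uc.comp (ContinuousLinearMap.snd ℝ _ _)), fun w => by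
        show (Uc (w.1 - A w.2), Uc w.2) = _
        rw [hUc, hUc]⟩
  obtain ⟨g, hg⟩ : ∃ g : WW (k + 1) →L[ℝ] WW (k + 1),
      ∀ w, g w = (U.symm w.1 + A (U.symm w.2), U.symm w.2) :=
    ⟨(Ui.comp (ContinuousLinearMap.fst ℝ _ _) +
        A.comp (Ui.comp (ContinuousLinearMap.snd ℝ _ _))).prod
      (Ui.comp (ContinuousLinearMap.snd ℝ _ _)), fun w => by
        show (Ui w.1 + A (Ui w.2), Ui w.2) = _
        rw [hUi, hUi]⟩
  have hgf : Function.LeftInverse g f := by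
    intro w
    rw [hf, hg]
    simp only [LinearIsometryEquiv.symm_apply_apply]
    refine Prod.ext ?_ rfl
    simp
  have hfg : Function.RightInverse g f := by
    intro w
    rw [hg, hf]
    simp only [add_sub_cancel_right, LinearIsometryEquiv.apply_symm_apply]
  refine ⟨ContinuousLinearEquiv.equivOfInverse f g hgf hfg, U, ?_, ?_, ?_⟩
  · intro a b
    show om (f a) (f b) = om a b
    rw [hf, hf]
    unfold om
    simp only [LinearIsometryEquiv.inner_map_map]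
    rw [inner_sub_left, inner_sub_right, hAs]
    ring
  · intro x
    show f (x, 0) = (U x, 0)
    rw [hf]
    simp
  · intro w hw1 hw2
    change (f w).1 = 0 at hw1
    change hd (f w).2 = 0 at hw2
    rw [hf] at hw1 hw2
    simp only at hw1 hw2
    have h1 : w.1 = A w.2 := by
      have := (map_eq_zero_iff U U.injective).1 hw1
      exact sub_eq_zero.1 this
    have h2 : U w.2 = U ((lt (U w.2) * ‖v‖⁻¹) • v) := by
      have h3 : U ((lt (U w.2) * ‖v‖⁻¹) • v) = lt (U w.2) • (mk (0, 1) : EE (k + 1)) := by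
        rw [mul_smul, map_smul, hU]
      rw [h3]
      apply ext_hd_lt
      · rw [hw2, map_smul, hd_mk, smul_zero]
      · rw [map_smul, lt_mk, smul_eq_mul, mul_one]
    have h3 := U.injective h2
    rw [Submodule.mem_span_singleton]
    refine ⟨lt (U w.2) * ‖v‖⁻¹, ?_⟩
    refine Prod.ext ?_ ?_
    · show (lt (U w.2) * ‖v‖⁻¹) • m = w.1
      rw [h1, ← hAv, ← map_smul, ← h3]
    · exact h3.symm

end Pool.Agent.Helper24.LC
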